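import Pool.Agent.Lib_helper84.HSG.DefsB

/-!
# Hilbert-Selberg, stage 2: the space of forms and the kernel forms. Definitions.
-/

namespace Pool.Agent.HSG

open Complex MeasureTheory Filter Topology UpperHalfPlane NumberField IsDedekindDomain
open scoped nonZeroDivisors MatrixGroups ENNReal

variable {K : Type} [Field K] [NumberField K]

theorem isForm_zero (k : ℕ) : IsForm (K := K) k (fun _ _ => 0) where
  holo L := differentiableOn_const _
  slash g _ z L := by simp
  scal a z L := by simp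
  bdd L := ⟨0, fun z => by simp⟩

theorem NY_nonneg (z : Em K → ℍ) : 0 ≤ NY z := Finset.prod_nonneg fun w _ => (z w).im_pos.le

theorem IsForm.add {k : ℕ} {F F' : (Em K → ℍ) → Lat K → ℂ} (h : IsForm k F) (h' : IsForm k F') :
    IsForm k (F + F') where
  holo L := (h.holo L).add (h'.holo L)
  slash g hg z L := by
    show F _ _ + F' _ _ = _ * (F _ _ + F' _ _)
    rw [h.slash g hg, h'.slash g hg, mul_add]
  scal a z L := by
    show F _ _ + F' _ _ = _ * (F _ _ + F' _ _)
    rw [h.scal, h'.scal, mul_add]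
  bdd L := by
    obtain ⟨C, hC⟩ := h.bdd L
    obtain ⟨C', hC'⟩ := h'.bdd L
    refine ⟨C + C', fun z => ?_⟩
    have h0 : 0 ≤ NY z ^ ((k : ℝ) / 2) := Real.rpow_nonneg (NY_nonneg z) _
    calc ‖F z L + F' z L‖ * NY z ^ ((k : ℝ) / 2)
        ≤ (‖F z L‖ + ‖F' z L‖) * NY z ^ ((k : ℝ) / 2) :=
          mul_le_mul_of_nonneg_right (norm_add_le _ _) h0
      _ = ‖F z L‖ * NY z ^ ((k : ℝ) / 2) + ‖F' z L‖ * NY z ^ ((k : ℝ) / 2) := add_mul _ _ _
      _ ≤ C + C' := add_le_add (hC z) (hC' z)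

theorem IsForm.smul {k : ℕ} {F : (Em K → ℍ) → Lat K → ℂ} (c : ℂ) (h : IsForm k F) :
    IsForm k (c • F) where
  holo L := (h.holo L).const_smul c
  slash g hg z L := by
    show c * F _ _ = _ * (c * F _ _)
    rw [h.slash g hg]; ring
  scal a z L := by
    show c * F _ _ = _ * (c * F _ _)
    rw [h.scal]; ring
  bdd L := by
    obtain ⟨C, hC⟩ := h.bdd L
    refine ⟨‖c‖ * C, fun z => ?_⟩
    show ‖c * F z L‖ * _ ≤ _
    rw [norm_mul, mul_assoc]
    exact mul_le_mul_of_nonneg_left (hC z) (norm_nonneg _)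

variable (K) in
/-- the space of forms of weight `k` -/
def VV (k : ℕ) : Submodule ℂ ((Em K → ℍ) → Lat K → ℂ) where
  carrier := {F | IsForm k F}
  add_mem' h h' := h.add h'
  zero_mem' := isForm_zero k
  smul_mem' c _ h := h.smul c

/-- the set of eigensystems of weight `k` -/
def SS (K : Type) [Field K] [NumberField K] (k : ℕ) : Set (Pr K → ℝ) :=
  {lam | ∃ F, IsEig k F lam}

/-! ### The extended modular group -/

variable (K) in
/-- matrices with totally positive determinant -/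
def GP : Subgroup (GL (Fin 2) K) where
  carrier := {g | ∀ w : Em K, 0 < w (g : Matrix (Fin 2) (Fin 2) K).det}
  mul_mem' := fun h1 h2 w => by
    rw [Units.val_mul, Matrix.det_mul, map_mul]
    exact mul_pos (h1 w) (h2 w)
  one_mem' := fun w => by simp
  inv_mem' := fun {g} h w => by
    have h1 : w ((g⁻¹ : GL (Fin 2) K) : Matrix (Fin 2) (Fin 2) K).det *
        w (g : Matrix (Fin 2) (Fin 2) K).det = 1 := by
      rw [← map_mul, ← Matrix.det_mul, ← Units.val_mul, inv_mul_cancel]
      simp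
    by_contra hcon
    push Not at hcon
    nlinarith [h w]

variable (K) in
/-- the scalar matrices -/
def ZP : Subgroup (GP K) := Subgroup.center (GP K)

variable (K) in
/-- the group `PGL₂⁺(K)` -/
abbrev PG := GP K ⧸ ZP K

/-- a representative -/
noncomputable def rp (c : PG K) : GL (Fin 2) K := (c.out : GP K)

/-- the unimodular automorphy factor -/
noncomputable def JJ (k : ℕ) (g : GL (Fin 2) K) (z : Em K → ℍ) : ℂ :=
  ∏ w, (lz (g 1) z w / ((‖lz (g 1) z w‖ : ℝ) : ℂ)) ^ k

/-- `g` maps the lattice `L` to the standard lattice, up to an ideal -/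
def St (g : GL (Fin 2) K) (L : Lat K) : Prop := ∃ a : Id K, L.mul g = (Lat.ds 1 1).sm a

/-- `g` is a scalar matrix -/
def Sc (g : GL (Fin 2) K) : Prop :=
  ∃ x : Kˣ, (g : Matrix (Fin 2) (Fin 2) K) = Matrix.scalar (Fin 2) (x : K)

open scoped Classical in
/-- a term of the kernel form -/
noncomputable def kt (k : ℕ) (z₀ : Em K → ℍ) (g : GL (Fin 2) K) (z : Em K → ℍ) (L : Lat K) : ℂ :=
  if St g L then JJ k g (g⁻¹ • z) * EW k z₀ (g⁻¹ • z) else 0

/-- the kernel form, in the invariant normalisation -/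
noncomputable def kp (k : ℕ) (z₀ : Em K → ℍ) (z : Em K → ℍ) (L : Lat K) : ℂ :=
  ∑' c : PG K, kt k z₀ (rp c) z L

/-- the kernel form -/
noncomputable def kF (k : ℕ) (z₀ : Em K → ℍ) (z : Em K → ℍ) (L : Lat K) : ℂ :=
  kp k z₀ z L * (((NY z * nI L.det) ^ (-(k : ℝ) / 2) : ℝ) : ℂ)

variable (K) in
/-- a box around the point `2i` -/
def BX (r : ℝ) : Set (Em K → ℍ) := {z | ∀ w, |(z w).re| ≤ r ∧ |(z w).im - 2| ≤ r}

variable (K) in
/-- the elements of the extended modular group which map a point of the box near the box are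
scalar -/
structure GapB (r δ : ℝ) : Prop where
  rpos : 0 < r
  rle : r ≤ 1 / 4
  dpos : 0 < δ
  gap : ∀ g ∈ GP K, St g (Lat.ds 1 1) → ∀ z ∈ BX K r, ∀ z' ∈ BX K r,
    chW (g • z) z' < 1 + δ → Sc g

end Pool.Agent.HSG
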